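import Mathlib

/-!
# The first three cluster size probabilities
-/

set_option autoImplicit false

open MeasureTheory Set

namespace Pool.Agent.L7h50.AG

/-- The mean number of children of a vertex of age `s`. -/
noncomputable def total (π : Measure ℝ) (s : ℝ) : ℝ := ∫ u, min s u ∂π

/-- The probability that the tree with a root of age `s` has one vertex. -/
noncomputable def P1 (π : Measure ℝ) (s : ℝ) : ℝ := Real.exp (-total π s)

/-- The probability that the tree with a root of age `s` has two vertices: one child, without children. -/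
noncomputable def P2 (π : Measure ℝ) (s : ℝ) : ℝ := Real.exp (-total π s) * ∫ u, min s u * P1 π u ∂π

/-- The probability that the tree with a root of age `s` has three vertices: two children without children, or one child
whose tree has two vertices. -/
noncomputable def P3 (π : Measure ℝ) (s : ℝ) : ℝ :=
  Real.exp (-total π s) * ((∫ u, min s u * P1 π u ∂π) ^ 2 / 2 + ∫ u, min s u * P2 π u ∂π)

/-- The integral of `min s u * P1 u`. -/
noncomputable def K (π : Measure ℝ) (s : ℝ) : ℝ := ∫ u, min s u * P1 π u ∂π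

variable {π : Measure ℝ} [IsProbabilityMeasure π]

lemma total_meas : Measurable (total π) := by
  have h : StronglyMeasurable (Function.uncurry fun s u : ℝ => min s u) :=
    (continuous_fst.min continuous_snd).stronglyMeasurable
  exact (h.integral_prod_right (ν := π)).measurable

lemma P1_meas : Measurable (P1 π) := Real.measurable_exp.comp total_meas.neg

lemma K_meas : Measurable (K π) := by
  have h : StronglyMeasurable (Function.uncurry fun s u : ℝ => min s u * P1 π u) := by
    apply Measurable.stronglyMeasurable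
    exact (measurable_fst.min measurable_snd).mul (P1_meas.comp measurable_snd)
  exact (h.integral_prod_right (ν := π)).measurable

lemma P1_pos (s : ℝ) : 0 < P1 π s := Real.exp_pos _

lemma int_of_bdd {f : ℝ → ℝ} (hf : Measurable f) (C : ℝ) (h : ∀ᵐ s ∂π, 0 ≤ f s ∧ f s ≤ C) :
    Integrable f π := by
  apply Integrable.of_bound hf.aestronglyMeasurable C
  filter_upwards [h] with s hs
  rw [Real.norm_of_nonneg hs.1]
  exact hs.2

section

variable (h0 : ∀ᵐ u ∂π, (0 : ℝ) ≤ u)
include h0

lemma total_nonneg {s : ℝ} (hs : 0 ≤ s) : 0 ≤ total π s := by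
  apply integral_nonneg_of_ae
  filter_upwards [h0] with u hu
  exact le_min hs hu

lemma P1_le {s : ℝ} (hs : 0 ≤ s) : P1 π s ≤ 1 := by
  unfold P1
  rw [Real.exp_le_one_iff]
  linarith [total_nonneg h0 hs]

lemma min_int {s : ℝ} (hs : 0 ≤ s) : Integrable (fun u => min s u) π := by
  apply int_of_bdd (measurable_const.min measurable_id) s
  filter_upwards [h0] with u hu
  exact ⟨le_min hs hu, min_le_left _ _⟩

lemma minP_int {s : ℝ} (hs : 0 ≤ s) : Integrable (fun u => min s u * P1 π u) π := by
  apply int_of_bdd ((measurable_const.min measurable_id).mul P1_meas) s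
  filter_upwards [h0] with u hu
  have h1 : 0 ≤ min s u := le_min hs hu
  have h2 : min s u ≤ s := min_le_left _ _
  have h3 := P1_le h0 hu
  have h4 := (P1_pos (π := π) u).le
  have h5 : min s u * P1 π u ≤ s := by nlinarith
  exact ⟨mul_nonneg h1 h4, h5⟩

lemma K_nonneg {s : ℝ} (hs : 0 ≤ s) : 0 ≤ K π s := by
  apply integral_nonneg_of_ae
  filter_upwards [h0] with u hu
  exact mul_nonneg (le_min hs hu) (P1_pos u).le

lemma K_le {s : ℝ} (hs : 0 ≤ s) : K π s ≤ total π s := by
  apply integral_mono_ae (minP_int h0 hs) (min_int h0 hs)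
  filter_upwards [h0] with u hu
  exact mul_le_of_le_one_right (le_min hs hu) (P1_le h0 hu)

lemma PK_le {s : ℝ} (hs : 0 ≤ s) : P1 π s * K π s ≤ 1 := by
  have h1 := K_le h0 hs
  have h2 := total_nonneg h0 hs
  have h3 : total π s ≤ Real.exp (total π s) := by linarith [Real.add_one_le_exp (total π s)]
  have h4 : P1 π s * Real.exp (total π s) = 1 := by
    unfold P1
    rw [← Real.exp_add, neg_add_cancel, Real.exp_zero]
  calc P1 π s * K π s ≤ P1 π s * Real.exp (total π s) :=
        mul_le_mul_of_nonneg_left (h1.trans h3) (P1_pos s).le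
    _ = 1 := h4

lemma PK2_le {s : ℝ} (hs : 0 ≤ s) : P1 π s * K π s ^ 2 ≤ 2 := by
  have h0' := K_nonneg h0 hs
  have h1 := K_le h0 hs
  have h2 := total_nonneg h0 hs
  have h3 := Real.quadratic_le_exp_of_nonneg h2
  have h4 : P1 π s * Real.exp (total π s) = 1 := by
    unfold P1
    rw [← Real.exp_add, neg_add_cancel, Real.exp_zero]
  have h5 : K π s ^ 2 ≤ 2 * Real.exp (total π s) := by
    have : K π s ^ 2 ≤ total π s ^ 2 := pow_le_pow_left₀ h0' h1 2
    nlinarith
  calc P1 π s * K π s ^ 2 ≤ P1 π s * (2 * Real.exp (total π s)) :=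
        mul_le_mul_of_nonneg_left h5 (P1_pos s).le
    _ = 2 * (P1 π s * Real.exp (total π s)) := by ring
    _ = 2 := by rw [h4]; norm_num

lemma P1_int : Integrable (P1 π) π := by
  apply int_of_bdd P1_meas 1
  filter_upwards [h0] with u hu
  exact ⟨(P1_pos u).le, P1_le h0 hu⟩

lemma PK_int : Integrable (fun s => P1 π s * K π s) π := by
  apply int_of_bdd (P1_meas.mul K_meas) 1
  filter_upwards [h0] with u hu
  exact ⟨mul_nonneg (P1_pos u).le (K_nonneg h0 hu), PK_le h0 hu⟩

lemma PK2_int : Integrable (fun s => P1 π s * K π s ^ 2) π := by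
  apply int_of_bdd (P1_meas.mul (K_meas.pow_const 2)) 2
  filter_upwards [h0] with u hu
  exact ⟨mul_nonneg (P1_pos u).le (sq_nonneg _), PK2_le h0 hu⟩

lemma fub_int : Integrable (Function.uncurry fun s u : ℝ =>
    P1 π s * (min s u * (P1 π u * K π u))) (π.prod π) := by
  have hm : Measurable (Function.uncurry fun s u : ℝ => P1 π s * (min s u * (P1 π u * K π u))) :=
    (P1_meas.comp measurable_fst).mul ((measurable_fst.min measurable_snd).mul
      ((P1_meas.comp measurable_snd).mul (K_meas.comp measurable_snd)))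
  rw [integrable_prod_iff' hm.aestronglyMeasurable]
  constructor
  · filter_upwards [h0] with u hu
    have h1 : 0 ≤ P1 π u * K π u := mul_nonneg (P1_pos u).le (K_nonneg h0 hu)
    show Integrable (fun s => P1 π s * (min s u * (P1 π u * K π u))) π
    apply int_of_bdd (C := u * (P1 π u * K π u))
    · exact P1_meas.mul ((measurable_id.min measurable_const).mul measurable_const)
    · filter_upwards [h0] with s hs
      have h2 : 0 ≤ min s u := le_min hs hu
      have h3 : min s u ≤ u := min_le_right _ _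
      have h4 := P1_le h0 hs
      have h5 := (P1_pos (π := π) s).le
      have h6 : min s u * (P1 π u * K π u) ≤ u * (P1 π u * K π u) :=
        mul_le_mul_of_nonneg_right h3 h1
      have h7 : 0 ≤ min s u * (P1 π u * K π u) := mul_nonneg h2 h1
      exact ⟨mul_nonneg h5 h7, by
        show P1 π s * (min s u * (P1 π u * K π u)) ≤ _
        nlinarith⟩
  · apply (PK2_int h0).congr
    filter_upwards [h0] with u hu
    have h1 : 0 ≤ P1 π u * K π u := mul_nonneg (P1_pos u).le (K_nonneg h0 hu)
    have h2 : ∫ s, ‖Function.uncurry (fun s u : ℝ => P1 π s * (min s u * (P1 π u * K π u))) (s, u)‖ ∂π =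
        ∫ s, (min u s * P1 π s) * (P1 π u * K π u) ∂π := by
      apply integral_congr_ae
      filter_upwards [h0] with s hs
      have h3 : 0 ≤ min s u := le_min hs hu
      show ‖P1 π s * (min s u * (P1 π u * K π u))‖ = _
      rw [Real.norm_of_nonneg (mul_nonneg (P1_pos s).le (mul_nonneg h3 h1)), min_comm]
      ring
    rw [h2, integral_mul_const]
    show P1 π u * K π u ^ 2 = K π u * (P1 π u * K π u)
    ring

lemma P3_int : ∫ s, P3 π s ∂π = 3 / 2 * ∫ s, P1 π s * K π s ^ 2 ∂π := by
  have e1 : ∀ s, P3 π s = 1 / 2 * (P1 π s * K π s ^ 2) +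
      ∫ u, P1 π s * (min s u * (P1 π u * K π u)) ∂π := by
    intro s
    rw [integral_const_mul]
    unfold P3
    show P1 π s * (K π s ^ 2 / 2 + ∫ u, min s u * (P1 π u * K π u) ∂π) = _
    ring
  have e2 : Integrable (fun s => ∫ u, P1 π s * (min s u * (P1 π u * K π u)) ∂π) π :=
    (fub_int h0).integral_prod_left
  simp_rw [e1]
  rw [integral_add ((PK2_int h0).const_mul _) e2, integral_integral_swap (fub_int h0),
    integral_const_mul]
  have e3 : ∫ u, ∫ s, P1 π s * (min s u * (P1 π u * K π u)) ∂π ∂π = ∫ s, P1 π s * K π s ^ 2 ∂π := by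
    apply integral_congr_ae
    filter_upwards with u
    have : ∫ s, P1 π s * (min s u * (P1 π u * K π u)) ∂π =
        ∫ s, (min u s * P1 π s) * (P1 π u * K π u) ∂π := by
      apply integral_congr_ae
      filter_upwards with s
      rw [min_comm]
      ring
    rw [this, integral_mul_const]
    show K π u * (P1 π u * K π u) = P1 π u * K π u ^ 2
    ring
  rw [e3]
  ring

lemma P2_int : ∫ s, P2 π s ∂π = ∫ s, P1 π s * K π s ∂π := rfl

lemma v1_pos : 0 < ∫ s, P1 π s ∂π := by
  rw [integral_pos_iff_support_of_nonneg (fun s => (P1_pos s).le) (P1_int h0)]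
  have : Function.support (P1 π) = univ := by
    ext s
    simp [(P1_pos (π := π) s).ne']
  rw [this, measure_univ]
  exact one_pos

lemma sq_int (c : ℝ) : ∫ s, P1 π s * (K π s - c) ^ 2 ∂π =
    (∫ s, P1 π s * K π s ^ 2 ∂π) - 2 * c * (∫ s, P1 π s * K π s ∂π) + c ^ 2 * ∫ s, P1 π s ∂π := by
  have e : ∀ s, P1 π s * (K π s - c) ^ 2 =
      (P1 π s * K π s ^ 2 - 2 * c * (P1 π s * K π s)) + c ^ 2 * P1 π s := by
    intro s; ring
  simp_rw [e]
  have i1 : Integrable (fun s => P1 π s * K π s ^ 2 - 2 * c * (P1 π s * K π s)) π :=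
    (PK2_int h0).sub ((PK_int h0).const_mul _)
  rw [integral_add i1 ((P1_int h0).const_mul _),
    integral_sub (PK2_int h0) ((PK_int h0).const_mul _), integral_const_mul, integral_const_mul]

lemma sq_integrable (c : ℝ) : Integrable (fun s => P1 π s * (K π s - c) ^ 2) π := by
  have e : (fun s => P1 π s * (K π s - c) ^ 2) =
      fun s => (P1 π s * K π s ^ 2 - 2 * c * (P1 π s * K π s)) + c ^ 2 * P1 π s := by
    funext s; ring
  rw [e]
  exact ((PK2_int h0).sub ((PK_int h0).const_mul _)).add ((P1_int h0).const_mul _)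

theorem ineq : 3 * (∫ s, P2 π s ∂π) ^ 2 ≤ 2 * (∫ s, P1 π s ∂π) * ∫ s, P3 π s ∂π := by
  rw [P3_int h0, P2_int h0]
  have h1 := v1_pos h0
  have h2 := sq_int h0 ((∫ s, P1 π s * K π s ∂π) / ∫ s, P1 π s ∂π)
  have h3 : 0 ≤ ∫ s, P1 π s * (K π s - (∫ s, P1 π s * K π s ∂π) / ∫ s, P1 π s ∂π) ^ 2 ∂π :=
    integral_nonneg fun s => mul_nonneg (P1_pos s).le (sq_nonneg _)
  rw [h2] at h3
  generalize (∫ s, P1 π s * K π s ^ 2 ∂π) = z at h3 ⊢
  generalize (∫ s, P1 π s * K π s ∂π) = y at h3 ⊢
  generalize (∫ s, P1 π s ∂π) = x at h1 h3 ⊢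
  have h4 : z - 2 * (y / x) * y + (y / x) ^ 2 * x = (x * z - y ^ 2) / x := by
    field_simp
    ring
  rw [h4] at h3
  have h5 : 0 ≤ x * z - y ^ 2 := by
    by_contra hneg
    push Not at hneg
    have := div_neg_of_neg_of_pos hneg h1
    linarith
  nlinarith

theorem eq_case (h : 3 * (∫ s, P2 π s ∂π) ^ 2 = 2 * (∫ s, P1 π s ∂π) * ∫ s, P3 π s ∂π) :
    ∃ a : ℝ, 0 ≤ a ∧ π = Measure.dirac a := by
  rw [P3_int h0, P2_int h0] at h
  have h1 := v1_pos h0
  obtain ⟨c, hc⟩ : ∃ c, c = (∫ s, P1 π s * K π s ∂π) / ∫ s, P1 π s ∂π := ⟨_, rfl⟩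
  have h2 := sq_int h0 c
  have h3 : ∫ s, P1 π s * (K π s - c) ^ 2 ∂π = 0 := by
    rw [h2, hc]
    generalize (∫ s, P1 π s * K π s ^ 2 ∂π) = z at h ⊢
    generalize (∫ s, P1 π s * K π s ∂π) = y at h ⊢
    generalize (∫ s, P1 π s ∂π) = x at h h1 ⊢
    field_simp
    nlinarith
  rw [integral_eq_zero_iff_of_nonneg (fun s => mul_nonneg (P1_pos s).le (sq_nonneg _))
    (sq_integrable h0 c)] at h3
  have hK : ∀ᵐ s ∂π, K π s = c := by
    filter_upwards [h3] with s hs
    have h4 : P1 π s * (K π s - c) ^ 2 = 0 := hs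
    rcases mul_eq_zero.1 h4 with h5 | h5
    · exact absurd h5 (P1_pos s).ne'
    · have := pow_eq_zero_iff (two_ne_zero) |>.1 h5
      linarith
  obtain ⟨a, ha⟩ : ∃ a, a = c / ∫ s, P1 π s ∂π := ⟨_, rfl⟩
  have hca : c = a * ∫ s, P1 π s ∂π := by rw [ha]; field_simp
  have hge : ∀ᵐ s ∂π, a ≤ s := by
    filter_upwards [hK, h0] with s hs hs0
    have h4 : K π s ≤ ∫ u, s * P1 π u ∂π := by
      apply integral_mono_ae (minP_int h0 hs0) ((P1_int h0).const_mul s)
      filter_upwards with u
      exact mul_le_mul_of_nonneg_right (min_le_left _ _) (P1_pos u).le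
    rw [integral_const_mul, hs, hca] at h4
    exact le_of_mul_le_mul_right h4 h1
  have hmin : ∀ᵐ s ∂π, ∀ᵐ u ∂π, min s u = a := by
    filter_upwards [hK, h0, hge] with s hs hs0 hsa
    have h4 : ∫ u, (min s u * P1 π u - a * P1 π u) ∂π = 0 := by
      rw [integral_sub (minP_int h0 hs0) ((P1_int h0).const_mul a), integral_const_mul, ← hca]
      show K π s - c = 0
      rw [hs, sub_self]
    have h5 : 0 ≤ᵐ[π] fun u => min s u * P1 π u - a * P1 π u := by
      filter_upwards [hge] with u hu
      have : a ≤ min s u := le_min hsa hu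
      have h6 := (P1_pos (π := π) u).le
      show 0 ≤ min s u * P1 π u - a * P1 π u
      nlinarith
    rw [integral_eq_zero_iff_of_nonneg_ae h5 ((minP_int h0 hs0).sub ((P1_int h0).const_mul a))] at h4
    filter_upwards [h4] with u hu
    have h6 : min s u * P1 π u - a * P1 π u = 0 := hu
    have h7 : (min s u - a) * P1 π u = 0 := by linarith
    rcases mul_eq_zero.1 h7 with h8 | h8
    · linarith
    · exact absurd h8 (P1_pos u).ne'
  have hioi : ∀ᵐ u ∂π, ¬ a < u := by
    by_contra hne
    have hfr : ∃ᵐ u ∂π, a < u := hne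
    obtain ⟨s, hs1, hs2⟩ := (hfr.and_eventually hmin).exists
    apply hne
    filter_upwards [hs2] with u hu hlt
    have : a < min s u := lt_min hs1 hlt
    linarith
  have hae : ∀ᵐ u ∂π, u = a := by
    filter_upwards [hioi, hge] with u hu1 hu2
    exact le_antisymm (not_lt.1 hu1) hu2
  refine ⟨a, ?_, ?_⟩
  · obtain ⟨u, hu1, hu2⟩ := (hae.and h0).exists
    rwa [hu1] at hu2
  · have h5 : π.map id = π.map fun _ => a := Measure.map_congr hae
    rw [Measure.map_id, Measure.map_const, measure_univ, one_smul] at h5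
    exact h5

end

lemma v1_dirac (a : ℝ) : ∫ s, P1 (Measure.dirac a) s ∂(Measure.dirac a) = Real.exp (-a) := by
  rw [integral_dirac]
  unfold P1 total
  rw [integral_dirac, min_self]

lemma v2_dirac (a : ℝ) : ∫ s, P2 (Measure.dirac a) s ∂(Measure.dirac a) =
    Real.exp (-a) * (a * Real.exp (-a)) := by
  rw [integral_dirac]
  unfold P2 P1 total
  rw [integral_dirac, integral_dirac, integral_dirac, min_self]

lemma v3_dirac (a : ℝ) : ∫ s, P3 (Measure.dirac a) s ∂(Measure.dirac a) =
    3 / 2 * (Real.exp (-a) * (a * Real.exp (-a)) ^ 2) := by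
  rw [integral_dirac]
  unfold P3 P2 P1 total
  simp only [integral_dirac, min_self]
  ring

end Pool.Agent.L7h50.AG
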