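import Pool.Agent.L7h50.AG.Link

/-!
# Finitely many atoms are determined by the generating function of the cluster size
-/

set_option autoImplicit false

namespace Pool.Agent.L7h50.AG

open Filter Topology

/-- The generating function of a summable nonnegative sequence is analytic in `(-1, 1)`. -/
lemma gf_an (c : ℕ → ℝ) (hc : Summable c) (h0 : ∀ k, 0 ≤ c k) (x : ℝ) (hx : |x| < 1) :
    AnalyticAt ℝ (fun x => ∑' k, c k * x ^ k) x := by
  set P : FormalMultilinearSeries ℝ ℝ ℝ := FormalMultilinearSeries.ofScalars ℝ c with hP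
  have hrad : (1 : ENNReal) ≤ P.radius := by
    have := P.le_radius_of_bound (∑' k, c k) (r := 1) (by
      intro n
      rw [hP, FormalMultilinearSeries.ofScalars_norm, Real.norm_of_nonneg (h0 n)]
      simp only [NNReal.coe_one, one_pow, mul_one]
      exact hc.le_tsum n fun k _ => h0 k)
    simpa using this
  have hps : HasFPowerSeriesOnBall P.sum P 0 P.radius :=
    P.hasFPowerSeriesOnBall (lt_of_lt_of_le one_pos hrad)
  have h1 : AnalyticAt ℝ P.sum x := by
    apply hps.analyticAt_of_mem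
    rw [Metric.mem_eball, edist_dist, dist_zero_right, Real.norm_eq_abs]
    exact lt_of_lt_of_le (by simpa [ENNReal.ofReal_lt_one] using hx) hrad
  have h2 : P.sum = fun x => ∑' k, c k * x ^ k := by
    funext y
    have := FormalMultilinearSeries.ofScalars_sum_eq (E := ℝ) c y
    simp only [smul_eq_mul] at this
    exact this
  rwa [h2] at h1

/-- The generating functions satisfy an equation on `[0, 1]`, hence on `(-1, 1)`. -/
lemma extend (S : Finset ℝ) (m : ℝ → ℝ) (q : ℝ → ℕ → ℝ) (hq : ∀ s, Summable (q s))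
    (h0 : ∀ s k, 0 ≤ q s k) (s : ℝ)
    (h : ∀ x, 0 ≤ x → x ≤ 1 → ∑' k, q s k * x ^ k =
      x * Real.exp (∑ u ∈ S, m u * (min s u * (∑' k, q u k * x ^ k - 1)))) (x : ℝ) (hx : |x| < 1) :
    ∑' k, q s k * x ^ k =
      x * Real.exp (∑ u ∈ S, m u * (min s u * (∑' k, q u k * x ^ k - 1))) := by
  have h1 : AnalyticOnNhd ℝ (fun x => ∑' k, q s k * x ^ k) (Set.Ioo (-1) 1) := fun y hy =>
    gf_an _ (hq s) (h0 s) y (abs_lt.2 hy)
  have h2 : AnalyticOnNhd ℝ (fun x => x *
      Real.exp (∑ u ∈ S, m u * (min s u * (∑' k, q u k * x ^ k - 1)))) (Set.Ioo (-1) 1) := by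
    intro y hy
    apply AnalyticAt.mul analyticAt_id
    apply AnalyticAt.rexp
    apply Finset.analyticAt_fun_sum
    intro u _
    exact analyticAt_const.mul (analyticAt_const.mul
      ((gf_an _ (hq u) (h0 u) y (abs_lt.2 hy)).sub analyticAt_const))
  have h3 := h1.eqOn_of_preconnected_of_eventuallyEq h2 isPreconnected_Ioo (z₀ := 1 / 2)
    (by constructor <;> norm_num) (by
      filter_upwards [Ioo_mem_nhds (a := (0 : ℝ)) (b := 1) (by norm_num : (0 : ℝ) < 1 / 2)
        (by norm_num)] with y hy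
      exact h y hy.1.le hy.2.le)
  exact h3 (abs_lt.1 hx)

lemma sum_sort (S : Finset ℝ) (f : ℝ → ℝ) : ((S.sort (· ≤ ·)).map f).sum = ∑ u ∈ S, f u := by
  rw [← List.sum_toFinset f (Finset.sort_nodup S _), Finset.sort_toFinset]

/-- The Dirichlet-to-Neumann function of the atoms. -/
lemma Lam_eq (S : Finset ℝ) (m : ℝ → ℝ) (G : ℝ → ℝ → ℝ) (hS : ∀ s ∈ S, 0 ≤ s) (hm : ∀ s ∈ S, 0 < m s)
    (h1 : ∑ s ∈ S, m s = 1)
    (hG : ∀ s ∈ S, ∀ x, |x| < 1 → G s x =
      x * Real.exp (∑ u ∈ S, m u * (min s u * (G u x - 1)))) (p : ℝ) (hp : p < 0) :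
    Lam (toL m 0 (S.sort (· ≤ ·))) p = 1 - ∑ u ∈ S, m u * G u (-Real.exp p) := by
  set F := S.sort (· ≤ ·) with hF
  set x := -Real.exp p with hx
  have hx1 : |x| < 1 := by
    rw [hx, abs_neg, abs_of_pos (Real.exp_pos p)]
    have := Real.exp_lt_exp.2 hp
    rwa [Real.exp_zero] at this
  have hmem : ∀ s, s ∈ F ↔ s ∈ S := fun s => Finset.mem_sort _
  have hsum : ∀ f : ℝ → ℝ, (F.map f).sum = ∑ u ∈ S, f u := sum_sort S
  have h2 := link m (fun u => m u * (1 - G u x)) p F (fun s hs => hm s ((hmem s).1 hs)) (by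
    intro s hs
    have e1 := hG s ((hmem s).1 hs) x hx1
    have e2 : -G s x = Real.exp (W F (fun u => m u * (1 - G u x)) p s) := by
      rw [e1, hx]
      unfold W
      rw [hsum, sub_eq_add_neg, Real.exp_add, ← Finset.sum_neg_distrib, neg_mul, neg_neg]
      congr 2
      apply Finset.sum_congr rfl
      intro u _
      ring
    rw [← e2]
    ring) F [] 0 rfl (by simp) (Finset.sortedLT_sort S).pairwise
    (fun u hu => hS u ((hmem u).1 hu))
  have h3 : W F (fun u => m u * (1 - G u x)) p 0 = p := by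
    unfold W
    rw [hsum]
    have : ∑ u ∈ S, min 0 u * (m u * (1 - G u x)) = 0 := by
      apply Finset.sum_eq_zero
      intro u hu
      rw [min_eq_left (hS u hu), zero_mul]
    rw [this, sub_zero]
  rw [h3, hsum] at h2
  have h4 : ∑ u ∈ S, m u * (1 - G u x) = ∑ u ∈ S, m u - ∑ u ∈ S, m u * G u x := by
    rw [← Finset.sum_sub_distrib]
    apply Finset.sum_congr rfl
    intro u _
    ring
  rw [h2, h4, h1]

/-- The generating function of the cluster size determines finitely many atoms. -/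
theorem core (S S' : Finset ℝ) (m m' : ℝ → ℝ) (G G' : ℝ → ℝ → ℝ)
    (hS : ∀ s ∈ S, 0 ≤ s) (hm : ∀ s ∈ S, 0 < m s) (h1 : ∑ s ∈ S, m s = 1)
    (hS' : ∀ s ∈ S', 0 ≤ s) (hm' : ∀ s ∈ S', 0 < m' s) (h1' : ∑ s ∈ S', m' s = 1)
    (hG : ∀ s ∈ S, ∀ x, |x| < 1 → G s x =
      x * Real.exp (∑ u ∈ S, m u * (min s u * (G u x - 1))))
    (hG' : ∀ s ∈ S', ∀ x, |x| < 1 → G' s x =
      x * Real.exp (∑ u ∈ S', m' u * (min s u * (G' u x - 1))))
    (hV : ∀ x, |x| < 1 → ∑ u ∈ S, m u * G u x = ∑ u ∈ S', m' u * G' u x) :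
    S = S' ∧ ∀ s ∈ S, m s = m' s := by
  have e : ∀ (S : Finset ℝ) (m : ℝ → ℝ), (∀ s ∈ S, 0 ≤ s) → (∀ s ∈ S, 0 < m s) →
      ∑ s ∈ S, m s = 1 → ∃ (s : ℝ) (l : List ℝ), S.sort (· ≤ ·) = s :: l ∧ 0 ≤ s ∧ 0 < m s ∧
        Pos (toL m s l) := by
    intro S m hS hm h1
    have hmem : ∀ s, s ∈ S.sort (· ≤ ·) ↔ s ∈ S := fun s => Finset.mem_sort _
    have hpw : (S.sort (· ≤ ·)).Pairwise (· < ·) := (Finset.sortedLT_sort S).pairwise
    cases hl : S.sort (· ≤ ·) with
    | nil =>
      have : S = ∅ := by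
        apply Finset.eq_empty_of_forall_notMem
        intro s hs
        rw [← hmem, hl] at hs
        simp at hs
      rw [this] at h1
      simp at h1
    | cons s l =>
      have hs : s ∈ S := by rw [← hmem, hl]; simp
      rw [hl] at hpw
      refine ⟨s, l, rfl, hS s hs, hm s hs, toL_pos m l s hpw fun u hu => hm u ?_⟩
      rw [← hmem, hl]
      exact List.mem_cons_of_mem _ hu
  obtain ⟨s, l, hl, hs0, hms, hPl⟩ := e S m hS hm h1
  obtain ⟨s', l', hl', hs0', hms', hPl'⟩ := e S' m' hS' hm' h1'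
  have g : Lam (toL m 0 (s :: l)) = Lam (toL m' 0 (s' :: l')) := by
    have a1 : AnalyticOnNhd ℝ (Lam (toL m 0 (s :: l))) Set.univ := by
      intro x _
      apply (good_Lam _ _).an x
      intro a ha
      rw [toL, List.mem_cons] at ha
      rcases ha with rfl | ha
      · exact ⟨by simpa using hs0, hms⟩
      · exact hPl.nn a ha
    have a2 : AnalyticOnNhd ℝ (Lam (toL m' 0 (s' :: l'))) Set.univ := by
      intro x _
      apply (good_Lam _ _).an x
      intro a ha
      rw [toL, List.mem_cons] at ha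
      rcases ha with rfl | ha
      · exact ⟨by simpa using hs0', hms'⟩
      · exact hPl'.nn a ha
    apply a1.eq_of_eventuallyEq a2 (z₀ := -1)
    filter_upwards [Iio_mem_nhds (show (-1 : ℝ) < 0 by norm_num)] with p hp
    rw [← hl, ← hl', Lam_eq S m G hS hm h1 hG p hp, Lam_eq S' m' G' hS' hm' h1' hG' p hp]
    rw [hV _ (by
      rw [abs_neg, abs_of_pos (Real.exp_pos p)]
      have := Real.exp_lt_exp.2 (show p < 0 from hp)
      rwa [Real.exp_zero] at this)]
  have g2 : toL m 0 (s :: l) = toL m' 0 (s' :: l') := by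
    rw [toL, toL] at g ⊢
    exact uniq' (by simpa using hs0) hms hPl (by simpa using hs0') hms' hPl' g
  obtain ⟨r1, r2⟩ := toL_inj m m' _ _ _ g2
  rw [← hl, ← hl'] at r1
  have r3 : S = S' := by
    ext u
    rw [← Finset.mem_sort (· ≤ ·), r1, Finset.mem_sort]
  refine ⟨r3, fun u hu => r2 u ?_⟩
  rw [← hl, Finset.mem_sort]
  exact hu

end Pool.Agent.L7h50.AG
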