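import Mathlib

/-!
# The nonlinear Dirichlet-to-Neumann function of a finite list of atoms
-/

set_option autoImplicit false

namespace Pool.Agent.L7h50.AG

open Filter Topology

/-- The slope before an atom of mass `m` at which the solution has the value `q`. -/
noncomputable def stepF (m : ℝ) (Λ : ℝ → ℝ) : ℝ → ℝ := fun q => m * (Real.exp q + 1) + Λ q

/-- The value at distance `d` before the atom. -/
noncomputable def stepG (d m : ℝ) (Λ : ℝ → ℝ) : ℝ → ℝ := fun q => q + d * stepF m Λ q

/-- The slope at the beginning as a function of the value at the beginning, for a list of pairs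
(gap, mass). -/
noncomputable def Lam : List (ℝ × ℝ) → ℝ → ℝ
  | [] => fun _ => 0
  | (d, m) :: L => fun p => stepF m (Lam L) (Function.invFun (stepG d m (Lam L)) p)

structure Good (Λ : ℝ → ℝ) : Prop where
  an : ∀ x, AnalyticAt ℝ Λ x
  mono : Monotone Λ
  nn : ∀ x, 0 ≤ Λ x

lemma good_stepF {m : ℝ} {Λ : ℝ → ℝ} (h : Good Λ) (hm : 0 < m) : Good (stepF m Λ) := by
  constructor
  · intro x
    unfold stepF
    have h1 : AnalyticAt ℝ (fun q : ℝ => Real.exp q) x := analyticAt_rexp
    exact (analyticAt_const.mul (h1.add analyticAt_const)).add (h.an x)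
  · intro x y hxy
    unfold stepF
    have h1 := Real.exp_le_exp.2 hxy
    have h2 := h.mono hxy
    nlinarith
  · intro x
    unfold stepF
    have h1 := Real.exp_pos x
    have h2 := h.nn x
    positivity

lemma stepG_lt {d m : ℝ} {Λ : ℝ → ℝ} (h : Good Λ) (hd : 0 ≤ d) (hm : 0 < m) :
    StrictMono (stepG d m Λ) := by
  intro x y hxy
  unfold stepG
  have h2 := (good_stepF h hm).mono hxy.le
  have h3 := mul_le_mul_of_nonneg_left h2 hd
  linarith

lemma stepG_cont {d m : ℝ} {Λ : ℝ → ℝ} (h : Good Λ) (hm : 0 < m) :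
    Continuous (stepG d m Λ) := by
  have h1 : Continuous (stepF m Λ) :=
    continuous_iff_continuousAt.2 fun x => ((good_stepF h hm).an x).continuousAt
  unfold stepG
  exact continuous_id.add (continuous_const.mul h1)

lemma le_stepG {d m : ℝ} {Λ : ℝ → ℝ} (h : Good Λ) (hd : 0 ≤ d) (hm : 0 < m) (q : ℝ) :
    q ≤ stepG d m Λ q := by
  unfold stepG
  have := mul_nonneg hd ((good_stepF h hm).nn q)
  linarith

lemma stepG_surj {d m : ℝ} {Λ : ℝ → ℝ} (h : Good Λ) (hd : 0 ≤ d) (hm : 0 < m) :
    Function.Surjective (stepG d m Λ) := by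
  apply (stepG_cont h hm).surjective
  · exact tendsto_atTop_mono (le_stepG h hd hm) tendsto_id
  · have h1 : Tendsto (fun q : ℝ => q + d * stepF m Λ 0) atBot atBot :=
      tendsto_atBot_add_const_right _ _ tendsto_id
    apply tendsto_atBot_mono' _ _ h1
    filter_upwards [eventually_le_atBot (0 : ℝ)] with q hq
    unfold stepG
    have := mul_le_mul_of_nonneg_left ((good_stepF h hm).mono hq) hd
    linarith

lemma stepG_deriv {d m : ℝ} {Λ : ℝ → ℝ} (h : Good Λ) (hd : 0 ≤ d) (hm : 0 < m) (x : ℝ) :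
    deriv (stepG d m Λ) x ≠ 0 := by
  have h1 : DifferentiableAt ℝ (stepF m Λ) x := ((good_stepF h hm).an x).differentiableAt
  have h2 : HasDerivAt (stepG d m Λ) (1 + d * deriv (stepF m Λ) x) x := by
    unfold stepG
    exact (hasDerivAt_id x).add (h1.hasDerivAt.const_mul d)
  rw [h2.deriv]
  have h3 : 0 ≤ deriv (stepF m Λ) x := (good_stepF h hm).mono.deriv_nonneg
  have := mul_nonneg hd h3
  positivity

lemma stepG_anal {d m : ℝ} {Λ : ℝ → ℝ} (h : Good Λ) (hm : 0 < m) (x : ℝ) :
    AnalyticAt ℝ (stepG d m Λ) x := by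
  unfold stepG
  exact analyticAt_id.add (analyticAt_const.mul ((good_stepF h hm).an x))

lemma inv_left {d m : ℝ} {Λ : ℝ → ℝ} (h : Good Λ) (hd : 0 ≤ d) (hm : 0 < m) (q : ℝ) :
    Function.invFun (stepG d m Λ) (stepG d m Λ q) = q :=
  Function.leftInverse_invFun (stepG_lt h hd hm).injective q

lemma inv_right {d m : ℝ} {Λ : ℝ → ℝ} (h : Good Λ) (hd : 0 ≤ d) (hm : 0 < m) (p : ℝ) :
    stepG d m Λ (Function.invFun (stepG d m Λ) p) = p :=
  Function.rightInverse_invFun (stepG_surj h hd hm) p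

lemma inv_mono {d m : ℝ} {Λ : ℝ → ℝ} (h : Good Λ) (hd : 0 ≤ d) (hm : 0 < m) :
    Monotone (Function.invFun (stepG d m Λ)) := by
  intro x y hxy
  by_contra hlt
  push Not at hlt
  have := stepG_lt h hd hm hlt
  rw [inv_right h hd hm, inv_right h hd hm] at this
  linarith

lemma inv_anal {d m : ℝ} {Λ : ℝ → ℝ} (h : Good Λ) (hd : 0 ≤ d) (hm : 0 < m) (p : ℝ) :
    AnalyticAt ℝ (Function.invFun (stepG d m Λ)) p := by
  obtain ⟨x, rfl⟩ := stepG_surj h hd hm p
  rw [← analyticAt_comp_iff_of_deriv_ne_zero (stepG_anal h hm x) (stepG_deriv h hd hm x)]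
  have : Function.invFun (stepG d m Λ) ∘ stepG d m Λ = id := by
    funext q
    exact inv_left h hd hm q
  rw [this]
  exact analyticAt_id

/-- All gaps nonnegative and all masses positive. -/
def NN (L : List (ℝ × ℝ)) : Prop := ∀ a ∈ L, 0 ≤ a.1 ∧ 0 < a.2

lemma good_Lam : ∀ L : List (ℝ × ℝ), NN L → Good (Lam L) := by
  intro L
  induction L with
  | nil =>
    intro _
    refine ⟨fun x => analyticAt_const, fun x y _ => le_rfl, fun x => le_rfl⟩
  | cons a L ih =>
    intro h
    obtain ⟨d, m⟩ := a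
    have hL : Good (Lam L) := ih fun b hb => h b (List.mem_cons_of_mem _ hb)
    obtain ⟨hd, hm⟩ := h (d, m) List.mem_cons_self
    simp only at hd hm
    refine ⟨fun x => ?_, fun x y hxy => ?_, fun x => ?_⟩
    · exact ((good_stepF hL hm).an _).comp (inv_anal hL hd hm x)
    · exact (good_stepF hL hm).mono (inv_mono hL hd hm hxy)
    · exact (good_stepF hL hm).nn _

/-- All gaps and all masses positive. -/
def Pos (L : List (ℝ × ℝ)) : Prop := ∀ a ∈ L, 0 < a.1 ∧ 0 < a.2

lemma Pos.nn {L : List (ℝ × ℝ)} (h : Pos L) : NN L := fun a ha => ⟨(h a ha).1.le, (h a ha).2⟩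

lemma growth : ∀ L : List (ℝ × ℝ), Pos L → ∃ C A : ℝ, 0 ≤ C ∧ ∀ q, A ≤ q → Lam L q ≤ C * q := by
  intro L hL
  cases L with
  | nil => exact ⟨0, 0, le_rfl, fun q _ => by simp [Lam]⟩
  | cons a L =>
    obtain ⟨d, m⟩ := a
    obtain ⟨hd, hm⟩ := hL (d, m) List.mem_cons_self
    simp only at hd hm
    have hG : Good (Lam L) := good_Lam L (Pos.nn fun b hb => hL b (List.mem_cons_of_mem _ hb))
    refine ⟨1 / d, stepG d m (Lam L) 0, by positivity, fun q hq => ?_⟩
    have h1 := inv_mono hG hd.le hm hq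
    rw [inv_left hG hd.le hm] at h1
    have h2 := inv_right hG hd.le hm q
    show stepF m (Lam L) (Function.invFun (stepG d m (Lam L)) q) ≤ 1 / d * q
    generalize Function.invFun (stepG d m (Lam L)) q = t at h1 h2
    unfold stepG at h2
    have h3 : d * stepF m (Lam L) t ≤ q := by linarith
    rw [one_div, inv_mul_eq_div, le_div_iff₀ hd]
    linarith

lemma Lam_cons_pos {d m : ℝ} {L : List (ℝ × ℝ)} (hm : 0 < m) (hL : NN L) (p : ℝ) :
    0 < Lam ((d, m) :: L) p := by
  show 0 < stepF m (Lam L) _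
  unfold stepF
  have h1 := (good_Lam L hL).nn (Function.invFun (stepG d m (Lam L)) p)
  have h2 := Real.exp_pos (Function.invFun (stepG d m (Lam L)) p)
  unfold stepG at h1 h2 ⊢
  positivity

/-- Exponential beats linear. -/
lemma exp_beats (c C A : ℝ) (hc : 0 < c) : ∃ t : ℝ, A ≤ t ∧ 0 < t ∧ C * t < c * Real.exp t := by
  refine ⟨max A (2 * |C| / c + 1), le_max_left _ _, ?_, ?_⟩
  · have : 0 < 2 * |C| / c + 1 := by positivity
    exact lt_of_lt_of_le this (le_max_right _ _)
  · set t := max A (2 * |C| / c + 1) with ht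
    have h1 : 2 * |C| / c + 1 ≤ t := le_max_right _ _
    have h0 : 0 < 2 * |C| / c + 1 := by positivity
    have ht0 : 0 < t := lt_of_lt_of_le h0 h1
    have h2 := Real.quadratic_le_exp_of_nonneg ht0.le
    have h3 : 2 * |C| / c < t := by linarith
    rw [div_lt_iff₀ hc] at h3
    have h4 : C ≤ |C| := le_abs_self C
    have h5 : C * t ≤ |C| * t := mul_le_mul_of_nonneg_right h4 ht0.le
    have h6 : 2 * |C| * t < t * c * t := mul_lt_mul_of_pos_right h3 ht0
    have h7 : c * (1 + t + t ^ 2 / 2) ≤ c * Real.exp t := mul_le_mul_of_nonneg_left h2 hc.le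
    nlinarith [mul_pos hc ht0]

lemma gap_le {d m d' m' : ℝ} {L L' : List (ℝ × ℝ)} (hd : 0 ≤ d) (hm : 0 < m) (hL : NN L)
    (hd' : 0 ≤ d') (hm' : 0 < m') (hL' : NN L')
    (h : Lam ((d, m) :: L) = Lam ((d', m') :: L')) : d' ≤ d := by
  by_contra hlt
  push Not at hlt
  have hG := good_Lam L hL
  have hG' := good_Lam L' hL'
  obtain ⟨t, ht1, ht0, ht2⟩ := exp_beats ((d' - d) * m) 1 (stepG d' m' (Lam L') 0)
    (mul_pos (by linarith) hm)
  set p := stepG d m (Lam L) t with hp
  have hpt : t ≤ p := le_stepG hG hd hm t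
  have h1 := inv_mono hG' hd' hm' (ht1.trans hpt)
  rw [inv_left hG' hd' hm'] at h1
  have h2 := inv_right hG' hd' hm' p
  have h3 : Lam ((d, m) :: L) p = stepF m (Lam L) t := by
    show stepF m (Lam L) (Function.invFun (stepG d m (Lam L)) p) = _
    rw [hp, inv_left hG hd hm]
  have h4 : Lam ((d', m') :: L') p =
      stepF m' (Lam L') (Function.invFun (stepG d' m' (Lam L')) p) := rfl
  rw [← h, h3] at h4
  generalize Function.invFun (stepG d' m' (Lam L')) p = t' at h1 h2 h4
  have h5 : t' + d' * stepF m' (Lam L') t' = p := h2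
  rw [← h4] at h5
  have h6 : t + d * stepF m (Lam L) t = p := rfl
  have h7 : m * Real.exp t ≤ stepF m (Lam L) t := by
    unfold stepF
    have := hG.nn t
    nlinarith
  have h8 : (d' - d) * (m * Real.exp t) ≤ (d' - d) * stepF m (Lam L) t :=
    mul_le_mul_of_nonneg_left h7 (by linarith)
  nlinarith

lemma mass_le {d m m' : ℝ} {L L' : List (ℝ × ℝ)} (hd : 0 ≤ d) (hm : 0 < m) (hL : NN L)
    (hm' : 0 < m') (hL' : Pos L')
    (h : ∀ q, stepF m (Lam L) q = stepF m' (Lam L') q) : m ≤ m' := by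
  by_contra hlt
  push Not at hlt
  obtain ⟨C, A, hC, hgr⟩ := growth L' hL'
  obtain ⟨t, ht1, ht0, ht2⟩ := exp_beats (m - m') C A (by linarith)
  have h1 := h t
  unfold stepF at h1
  have h2 := hgr t ht1
  have h3 := (good_Lam L hL).nn t
  nlinarith

/-- The Dirichlet-to-Neumann function determines the first gap, the first mass and the rest. -/
lemma peel {d m d' m' : ℝ} {L L' : List (ℝ × ℝ)} (hd : 0 ≤ d) (hm : 0 < m) (hL : Pos L)
    (hd' : 0 ≤ d') (hm' : 0 < m') (hL' : Pos L')
    (h : Lam ((d, m) :: L) = Lam ((d', m') :: L')) : d = d' ∧ m = m' ∧ Lam L = Lam L' := by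
  have hdd : d = d' := le_antisymm (gap_le hd' hm' hL'.nn hd hm hL.nn h.symm)
    (gap_le hd hm hL.nn hd' hm' hL'.nn h)
  subst hdd
  have hG := good_Lam L hL.nn
  have hG' := good_Lam L' hL'.nn
  have key : ∀ q, stepF m (Lam L) q = stepF m' (Lam L') q := by
    intro q
    set p := stepG d m (Lam L) q with hp
    have h3 : Lam ((d, m) :: L) p = stepF m (Lam L) q := by
      show stepF m (Lam L) (Function.invFun (stepG d m (Lam L)) p) = _
      rw [hp, inv_left hG hd hm]
    have h4 : Lam ((d, m') :: L') p =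
      stepF m' (Lam L') (Function.invFun (stepG d m' (Lam L')) p) := rfl
    have h2 := inv_right hG' hd hm' p
    rw [← h, h3] at h4
    generalize Function.invFun (stepG d m' (Lam L')) p = t' at h2 h4
    have h5 : t' + d * stepF m' (Lam L') t' = p := h2
    rw [← h4] at h5
    have h6 : q + d * stepF m (Lam L) q = p := rfl
    have h7 : t' = q := by linarith
    rw [h7] at h4
    exact h4
  have hmm : m = m' := le_antisymm (mass_le hd hm hL.nn hm' hL' key)
    (mass_le hd hm' hL'.nn hm hL fun q => (key q).symm)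
  subst hmm
  refine ⟨rfl, rfl, ?_⟩
  funext q
  have := key q
  unfold stepF at this
  linarith

/-- The Dirichlet-to-Neumann function determines the list. -/
lemma uniq : ∀ L L' : List (ℝ × ℝ), Pos L → Pos L' → Lam L = Lam L' → L = L' := by
  intro L
  induction L with
  | nil =>
    intro L' _ hL' h
    cases L' with
    | nil => rfl
    | cons a L' =>
      obtain ⟨d, m⟩ := a
      have h1 := Lam_cons_pos (d := d) (hL' (d, m) List.mem_cons_self).2
        (Pos.nn fun b hb => hL' b (List.mem_cons_of_mem _ hb)) 0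
      rw [← h] at h1
      simp [Lam] at h1
  | cons a L ih =>
    intro L' hL hL' h
    obtain ⟨d, m⟩ := a
    cases L' with
    | nil =>
      have h1 := Lam_cons_pos (d := d) (hL (d, m) List.mem_cons_self).2
        (Pos.nn fun b hb => hL b (List.mem_cons_of_mem _ hb)) 0
      rw [h] at h1
      simp [Lam] at h1
    | cons a' L' =>
      obtain ⟨d', m'⟩ := a'
      have e1 := hL (d, m) List.mem_cons_self
      have e2 := hL' (d', m') List.mem_cons_self
      have e3 : Pos L := fun b hb => hL b (List.mem_cons_of_mem _ hb)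
      have e4 : Pos L' := fun b hb => hL' b (List.mem_cons_of_mem _ hb)
      obtain ⟨r1, r2, r3⟩ := peel e1.1.le e1.2 e3 e2.1.le e2.2 e4 h
      simp only at r1 r2
      rw [r1, r2, ih L' e3 e4 r3]

/-- The same with a nonnegative first gap. -/
lemma uniq' {d m d' m' : ℝ} {L L' : List (ℝ × ℝ)} (hd : 0 ≤ d) (hm : 0 < m) (hL : Pos L)
    (hd' : 0 ≤ d') (hm' : 0 < m') (hL' : Pos L')
    (h : Lam ((d, m) :: L) = Lam ((d', m') :: L')) : (d, m) :: L = (d', m') :: L' := by
  obtain ⟨r1, r2, r3⟩ := peel hd hm hL hd' hm' hL' h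
  rw [r1, r2, uniq L L' hL hL' r3]

end Pool.Agent.L7h50.AG
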