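import Pool.Agent.L7h50.AG.Two
import Pool.Agent.L7h46.AG.Frm

/-!
# The inequality between the second, the third and the fourth cluster size probability
-/

set_option autoImplicit false

open MeasureTheory Set

namespace Pool.Agent.L7h50.AG

variable {π : Measure ℝ} [IsProbabilityMeasure π]

section

variable (h0 : ∀ᵐ u ∂π, (0 : ℝ) ≤ u)
include h0

lemma frmK (c : ℝ) : 0 ≤ (∫ s, P1 π s * (K π s * N π s) ∂π) -
    2 * c * (∫ s, P1 π s * K π s ^ 2 ∂π) + c ^ 2 * ∫ s, P1 π s * K π s ∂π := by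
  have w1 : ∀ s, 0 ≤ s → 0 ≤ P1 π s := fun s _ => (P1_pos s).le
  have w2 : ∀ s, 0 ≤ s → P1 π s ≤ 1 := fun s hs => P1_le h0 hs
  have w3 : ∀ s, 0 ≤ s → 0 ≤ P2 π s := fun s hs => mul_nonneg (P1_pos s).le (K_nonneg h0 hs)
  have w4 : ∀ s, 0 ≤ s → P2 π s ≤ 1 := fun s hs => PK_le h0 hs
  have c1 : (fun u => P1 π u * (K π u * N π u)) = fun u => (∫ s, min u s * P2 π s ∂π) * P2 π u := by
    funext u
    show _ = N π u * (P1 π u * K π u)
    ring
  have c2 : (fun u => P1 π u * N π u) = fun u => (∫ s, min u s * P2 π s ∂π) * P1 π u := by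
    funext u
    show _ = N π u * P1 π u
    ring
  have c3 : (fun u => P1 π u * K π u ^ 2) = fun u => (∫ s, min u s * P1 π s ∂π) * P2 π u := by
    funext u
    show _ = K π u * (P1 π u * K π u)
    ring
  have c4 : (fun u => P1 π u * K π u) = fun u => (∫ s, min u s * P1 π s ∂π) * P1 π u := by
    funext u
    show _ = K π u * P1 π u
    ring
  have a1 := fub h0 (P2 π) (P2 π) P2_meas P2_meas w3 w4 w3 (by rw [← c1]; exact PKN_int h0)
  have a2 := fub h0 (P2 π) (P1 π) P2_meas P1_meas w3 w4 w1 (by rw [← c2]; exact PN_int h0)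
  have a3 := fub h0 (P1 π) (P2 π) P1_meas P2_meas w1 w2 w3 (by rw [← c3]; exact PK2_int h0)
  have a4 := fub h0 (P1 π) (P1 π) P1_meas P1_meas w1 w2 w1 (by rw [← c4]; exact PK_int h0)
  rw [← c1] at a1
  rw [← c2, PN_eq h0] at a2
  rw [← c3] at a3
  rw [← c4] at a4
  have hf : Measurable fun s => P2 π s - c * P1 π s := P2_meas.sub (P1_meas.const_mul c)
  have hfi : Integrable (fun s => P2 π s - c * P1 π s) π := (PK_int h0).sub ((P1_int h0).const_mul c)
  have e : (Function.uncurry fun s u : ℝ => (P2 π s - c * P1 π s) * (min s u * (P2 π u - c * P1 π u))) =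
      fun z : ℝ × ℝ => (Function.uncurry (fun s u : ℝ => P2 π s * (min s u * P2 π u)) z -
        c * Function.uncurry (fun s u : ℝ => P2 π s * (min s u * P1 π u)) z -
        c * Function.uncurry (fun s u : ℝ => P1 π s * (min s u * P2 π u)) z) +
        c ^ 2 * Function.uncurry (fun s u : ℝ => P1 π s * (min s u * P1 π u)) z := by
    funext z
    simp only [Function.uncurry]
    ring
  have i12 : Integrable (fun z : ℝ × ℝ => Function.uncurry (fun s u : ℝ => P2 π s * (min s u * P2 π u)) z -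
        c * Function.uncurry (fun s u : ℝ => P2 π s * (min s u * P1 π u)) z) (π.prod π) :=
    a1.1.sub (a2.1.const_mul c)
  have i123 : Integrable (fun z : ℝ × ℝ => Function.uncurry (fun s u : ℝ => P2 π s * (min s u * P2 π u)) z -
        c * Function.uncurry (fun s u : ℝ => P2 π s * (min s u * P1 π u)) z -
        c * Function.uncurry (fun s u : ℝ => P1 π s * (min s u * P2 π u)) z) (π.prod π) :=
    i12.sub (a3.1.const_mul c)
  have hi : Integrable (Function.uncurry fun s u : ℝ =>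
      (P2 π s - c * P1 π s) * (min s u * (P2 π u - c * P1 π u))) (π.prod π) := by
    rw [e]
    exact i123.add (a4.1.const_mul _)
  have h := Pool.Agent.L7h46.AG.frm π h0 (fun s => P2 π s - c * P1 π s) hf hi hfi
  rw [integral_integral hi] at h
  have e5 : ∫ z : ℝ × ℝ, (P2 π z.1 - c * P1 π z.1) * (min z.1 z.2 * (P2 π z.2 - c * P1 π z.2)) ∂(π.prod π) =
      ∫ z : ℝ × ℝ, (Function.uncurry fun s u : ℝ =>
      (P2 π s - c * P1 π s) * (min s u * (P2 π u - c * P1 π u))) z ∂(π.prod π) := rfl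
  rw [e5, e, integral_add i123 (a4.1.const_mul _), integral_sub i12 (a3.1.const_mul _),
    integral_sub a1.1 (a2.1.const_mul _), integral_const_mul, integral_const_mul,
    integral_const_mul] at h
  have b1 := integral_integral a1.1
  have b2 := integral_integral a2.1
  have b3 := integral_integral a3.1
  have b4 := integral_integral a4.1
  rw [a1.2] at b1
  rw [a2.2] at b2
  rw [a3.2] at b3
  rw [a4.2] at b4
  have d1 : ∫ z : ℝ × ℝ, Function.uncurry (fun s u : ℝ => P2 π s * (min s u * P2 π u)) z ∂(π.prod π) =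
    ∫ u, P1 π u * (K π u * N π u) ∂π := b1.symm
  have d2 : ∫ z : ℝ × ℝ, Function.uncurry (fun s u : ℝ => P2 π s * (min s u * P1 π u)) z ∂(π.prod π) =
    ∫ u, P1 π u * K π u ^ 2 ∂π := b2.symm
  have d3 : ∫ z : ℝ × ℝ, Function.uncurry (fun s u : ℝ => P1 π s * (min s u * P2 π u)) z ∂(π.prod π) =
    ∫ u, P1 π u * K π u ^ 2 ∂π := b3.symm
  have d4 : ∫ z : ℝ × ℝ, Function.uncurry (fun s u : ℝ => P1 π s * (min s u * P1 π u)) z ∂(π.prod π) =
    ∫ u, P1 π u * K π u ∂π := b4.symm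
  rw [d1, d2, d3, d4] at h
  linarith

lemma mu1_nonneg : 0 ≤ ∫ s, P1 π s * K π s ∂π := by
  apply integral_nonneg_of_ae
  filter_upwards [h0] with s hs
  exact mul_nonneg (P1_pos s).le (K_nonneg h0 hs)

lemma cub_nonneg (c : ℝ) : 0 ≤ (∫ s, P1 π s * K π s ^ 3 ∂π) - 2 * c * (∫ s, P1 π s * K π s ^ 2 ∂π) +
      c ^ 2 * ∫ s, P1 π s * K π s ∂π := by
  rw [← cub_int h0 c]
  apply integral_nonneg_of_ae
  filter_upwards [h0] with s hs
  exact mul_nonneg (mul_nonneg (P1_pos s).le (K_nonneg h0 hs)) (sq_nonneg _)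

lemma alg (x y z : ℝ) (hx : 0 < x) (h : 0 ≤ z - 2 * (y / x) * y + (y / x) ^ 2 * x) : y ^ 2 ≤ x * z := by
  have h4 : z - 2 * (y / x) * y + (y / x) ^ 2 * x = (x * z - y ^ 2) / x := by
    field_simp
    ring
  rw [h4] at h
  by_contra hneg
  push Not at hneg
  have := div_neg_of_neg_of_pos (show x * z - y ^ 2 < 0 by linarith) hx
  linarith

theorem ineq4 : 32 * (∫ s, P3 π s ∂π) ^ 2 ≤ 27 * (∫ s, P2 π s ∂π) * ∫ s, P4 π s ∂π := by
  rw [P3_int h0, P2_int h0, P4_int h0]
  rcases (mu1_nonneg h0).eq_or_lt with h | h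
  · have hf := frmK h0
    rw [← h] at hf ⊢
    generalize (∫ s, P1 π s * (K π s * N π s) ∂π) = Q at hf ⊢
    generalize (∫ s, P1 π s * K π s ^ 2 ∂π) = y at hf ⊢
    have hy : y = 0 := by
      by_contra hy
      have h1 := hf ((Q + 1) / (2 * y))
      have h2 : 2 * ((Q + 1) / (2 * y)) * y = Q + 1 := by field_simp
      rw [h2] at h1
      linarith
    rw [hy]
    norm_num
  · have h1 := alg h0 _ _ _ h (cub_nonneg h0 _)
    have h2 := alg h0 _ _ _ h (frmK h0 _)
    nlinarith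

theorem eq_case4 (h : 32 * (∫ s, P3 π s ∂π) ^ 2 = 27 * (∫ s, P2 π s ∂π) * ∫ s, P4 π s ∂π) :
    ∃ a : ℝ, 0 ≤ a ∧ ∀ᵐ u ∂π, u = 0 ∨ u = a := by
  rw [P3_int h0, P2_int h0, P4_int h0] at h
  by_cases hz : ∀ᵐ u ∂π, ¬ 0 < u
  · refine ⟨0, le_rfl, ?_⟩
    filter_upwards [hz, h0] with u h1 h2
    left
    exact le_antisymm (not_lt.1 h1) h2
  have hfr : ∃ᵐ u ∂π, 0 < u := hz
  have hKpos : ∀ s, 0 < s → 0 < K π s := by
    intro s hs
    rcases (K_nonneg h0 hs.le).eq_or_lt with h1 | h1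
    · exfalso
      have h2 : 0 ≤ᵐ[π] fun u => min s u * P1 π u := by
        filter_upwards [h0] with u hu
        exact mul_nonneg (le_min hs.le hu) (P1_pos u).le
      have h3 : ∫ u, min s u * P1 π u ∂π = 0 := h1.symm
      rw [integral_eq_zero_iff_of_nonneg_ae h2 (minP_int h0 hs.le)] at h3
      obtain ⟨u, hu1, hu2⟩ := (hfr.and_eventually h3).exists
      have h4 : min s u * P1 π u = 0 := hu2
      exact (mul_pos (lt_min hs hu1) (P1_pos u)).ne' h4
    · exact h1
  have hmu : 0 < ∫ s, P1 π s * K π s ∂π := by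
    rcases (mu1_nonneg h0).eq_or_lt with h1 | h1
    · exfalso
      have h2 : 0 ≤ᵐ[π] fun s => P1 π s * K π s := by
        filter_upwards [h0] with s hs
        exact mul_nonneg (P1_pos s).le (K_nonneg h0 hs)
      have h3 := h1.symm
      rw [integral_eq_zero_iff_of_nonneg_ae h2 (PK_int h0)] at h3
      obtain ⟨u, hu1, hu2⟩ := (hfr.and_eventually h3).exists
      have h4 : P1 π u * K π u = 0 := hu2
      exact (mul_pos (P1_pos u) (hKpos u hu1)).ne' h4
    · exact h1
  obtain ⟨c, hc⟩ : ∃ c, c = (∫ s, P1 π s * K π s ^ 2 ∂π) / ∫ s, P1 π s * K π s ∂π := ⟨_, rfl⟩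
  have h3 : ∫ s, P1 π s * K π s * (K π s - c) ^ 2 ∂π = 0 := by
    have h1 := alg h0 _ _ _ hmu (cub_nonneg h0 _)
    have h2 := alg h0 _ _ _ hmu (frmK h0 _)
    have h4 : (∫ s, P1 π s * K π s ∂π) * (∫ s, P1 π s * K π s ^ 3 ∂π) =
        (∫ s, P1 π s * K π s ^ 2 ∂π) ^ 2 := by nlinarith
    rw [cub_int h0 c, hc]
    generalize (∫ s, P1 π s * K π s ^ 3 ∂π) = z at h4 ⊢
    generalize (∫ s, P1 π s * K π s ^ 2 ∂π) = y at h4 ⊢
    generalize (∫ s, P1 π s * K π s ∂π) = x at h4 hmu ⊢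
    field_simp
    linarith
  have hnn : 0 ≤ᵐ[π] fun s => P1 π s * K π s * (K π s - c) ^ 2 := by
    filter_upwards [h0] with s hs
    exact mul_nonneg (mul_nonneg (P1_pos s).le (K_nonneg h0 hs)) (sq_nonneg _)
  rw [integral_eq_zero_iff_of_nonneg_ae hnn (cub_integrable h0 c)] at h3
  have hK : ∀ᵐ s ∂π, 0 < s → K π s = c := by
    filter_upwards [h3] with s hs hs0
    have h4 : P1 π s * K π s * (K π s - c) ^ 2 = 0 := hs
    rcases mul_eq_zero.1 h4 with h5 | h5
    · exact absurd h5 (mul_pos (P1_pos s) (hKpos s hs0)).ne'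
    · have := pow_eq_zero_iff (two_ne_zero) |>.1 h5
      linarith
  obtain ⟨g, hg⟩ : ∃ g : ℝ → ℝ, g = (Ioi (0 : ℝ)).indicator (P1 π) := ⟨_, rfl⟩
  have hgpos : ∀ u, 0 < u → g u = P1 π u := fun u hu => by
    rw [hg]; exact indicator_of_mem (show u ∈ Ioi (0 : ℝ) from hu) _
  have hgint : Integrable g π := by
    rw [hg]; exact (P1_int h0).indicator measurableSet_Ioi
  have hg0 : g 0 = 0 := by
    rw [hg]; exact indicator_of_notMem (by simp) _
  have hKB : ∀ s, 0 ≤ s → K π s ≤ s * ∫ u, g u ∂π := by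
    intro s hs
    rw [← integral_const_mul]
    apply integral_mono_ae (minP_int h0 hs) (hgint.const_mul s)
    filter_upwards [h0] with u hu
    rcases hu.eq_or_lt with h5 | h5
    · rw [← h5, hg0, min_eq_right hs]; simp
    · rw [hgpos u h5]
      exact mul_le_mul_of_nonneg_right (min_le_left _ _) (P1_pos u).le
  obtain ⟨s0, hs0, hs0'⟩ := (hfr.and_eventually hK).exists
  have hcpos : 0 < c := by rw [← hs0' hs0]; exact hKpos s0 hs0
  have hB : 0 < ∫ u, g u ∂π := by
    have h5 := (hKpos s0 hs0).trans_le (hKB s0 hs0.le)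
    exact (mul_pos_iff_of_pos_left hs0).1 h5
  obtain ⟨a, ha⟩ : ∃ a, a = c / ∫ u, g u ∂π := ⟨_, rfl⟩
  have ha0 : 0 < a := by rw [ha]; exact div_pos hcpos hB
  have hca : c = a * ∫ u, g u ∂π := by rw [ha]; field_simp
  have hge : ∀ᵐ s ∂π, 0 < s → a ≤ s := by
    filter_upwards [hK] with s hs hs0
    have h5 := hKB s hs0.le
    rw [hs hs0, hca] at h5
    exact le_of_mul_le_mul_right h5 hB
  have hmin : ∀ᵐ s ∂π, 0 < s → ∀ᵐ u ∂π, 0 < u → min s u = a := by
    filter_upwards [hK, hge] with s hs hsa hs0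
    have h4 : ∫ u, (min s u * P1 π u - a * g u) ∂π = 0 := by
      rw [integral_sub (minP_int h0 hs0.le) (hgint.const_mul a), integral_const_mul, ← hca]
      show K π s - c = 0
      rw [hs hs0, sub_self]
    have h5 : 0 ≤ᵐ[π] fun u => min s u * P1 π u - a * g u := by
      filter_upwards [hge, h0] with u hu hu0
      rcases hu0.eq_or_lt with h6 | h6
      · rw [← h6, hg0, min_eq_right hs0.le]; simp
      · have h7 : a ≤ min s u := le_min (hsa hs0) (hu h6)
        have h8 := (P1_pos (π := π) u).le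
        show 0 ≤ min s u * P1 π u - a * g u
        rw [hgpos u h6]
        nlinarith
    rw [integral_eq_zero_iff_of_nonneg_ae h5 ((minP_int h0 hs0.le).sub (hgint.const_mul a))] at h4
    filter_upwards [h4] with u hu hu0
    have h6 : min s u * P1 π u - a * g u = 0 := hu
    rw [hgpos u hu0] at h6
    have h7 : (min s u - a) * P1 π u = 0 := by linarith
    rcases mul_eq_zero.1 h7 with h8 | h8
    · linarith
    · exact absurd h8 (P1_pos u).ne'
  have hioi : ∀ᵐ u ∂π, ¬ a < u := by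
    by_contra hne
    have hfr2 : ∃ᵐ u ∂π, a < u := hne
    obtain ⟨s, hs1, hs2⟩ := (hfr2.and_eventually hmin).exists
    apply hne
    filter_upwards [hs2 (ha0.trans hs1)] with u hu hlt
    have h5 : a < min s u := lt_min hs1 hlt
    have h6 := hu (ha0.trans hlt)
    linarith
  refine ⟨a, ha0.le, ?_⟩
  filter_upwards [hioi, hge, h0] with u h5 h6 h7
  rcases h7.eq_or_lt with h8 | h8
  · left; exact h8.symm
  · right; exact le_antisymm (not_lt.1 h5) (h6 h8)

/-- The converse. -/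
theorem eq_conv4 (a : ℝ) (h : ∀ᵐ u ∂π, u = 0 ∨ u = a) :
    32 * (∫ s, P3 π s ∂π) ^ 2 = 27 * (∫ s, P2 π s ∂π) * ∫ s, P4 π s ∂π := by
  rw [P3_int h0, P2_int h0, P4_int h0]
  have hK0 : K π 0 = 0 := by
    show ∫ u, min 0 u * P1 π u ∂π = 0
    rw [integral_eq_zero_of_ae]
    filter_upwards [h0] with u hu
    rw [min_eq_left hu]
    simp
  have hN : ∀ s, 0 ≤ s → N π s = K π a * K π s := by
    intro s hs
    show ∫ u, min s u * (P1 π u * K π u) ∂π = K π a * ∫ u, min s u * P1 π u ∂π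
    rw [← integral_const_mul]
    apply integral_congr_ae
    filter_upwards [h] with u hu
    rcases hu with rfl | rfl
    · rw [min_eq_right hs]; simp
    · ring
  have hKK : ∀ᵐ s ∂π, K π s ^ 2 = K π a * K π s := by
    filter_upwards [h] with s hs
    rcases hs with rfl | rfl
    · rw [hK0]; ring
    · ring
  have e2 : ∫ s, P1 π s * K π s ^ 2 ∂π = K π a * ∫ s, P1 π s * K π s ∂π := by
    rw [← integral_const_mul]
    apply integral_congr_ae
    filter_upwards [hKK] with s hs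
    rw [hs]; ring
  have e3 : ∫ s, P1 π s * K π s ^ 3 ∂π = K π a ^ 2 * ∫ s, P1 π s * K π s ∂π := by
    rw [← integral_const_mul]
    apply integral_congr_ae
    filter_upwards [hKK] with s hs
    have : K π s ^ 3 = K π s ^ 2 * K π s := by ring
    rw [this, hs]
    have : K π a * K π s * K π s = K π a * K π s ^ 2 := by ring
    rw [this, hs]; ring
  have eQ : ∫ s, P1 π s * (K π s * N π s) ∂π = K π a ^ 2 * ∫ s, P1 π s * K π s ∂π := by
    rw [← integral_const_mul]
    apply integral_congr_ae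
    filter_upwards [hKK, h0] with s hs hs0
    rw [hN s hs0]
    have : K π s * (K π a * K π s) = K π a * K π s ^ 2 := by ring
    rw [this, hs]; ring
  rw [e2, e3, eQ]
  ring

end

end Pool.Agent.L7h50.AG
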