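import Pool.Agent.L7h50.AG.Dn

/-!
# From the generating functions of the cluster sizes to the Dirichlet-to-Neumann function
-/

set_option autoImplicit false

namespace Pool.Agent.L7h50.AG

open Filter Topology

/-- The list of gaps and masses of a sorted list of ages, seen from the age `b`. -/
noncomputable def toL (m : ℝ → ℝ) : ℝ → List ℝ → List (ℝ × ℝ)
  | _, [] => []
  | b, s :: l => (s - b, m s) :: toL m s l

lemma toL_pos (m : ℝ → ℝ) : ∀ (l : List ℝ) (b : ℝ), (b :: l).Pairwise (· < ·) →
    (∀ s ∈ l, 0 < m s) → Pos (toL m b l) := by
  intro l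
  induction l with
  | nil => intro b _ _ a ha; simp [toL] at ha
  | cons s l ih =>
    intro b hb hm a ha
    rw [toL, List.mem_cons] at ha
    rw [List.pairwise_cons] at hb
    rcases ha with rfl | ha
    · exact ⟨sub_pos.2 (hb.1 s List.mem_cons_self), hm s List.mem_cons_self⟩
    · exact ih s hb.2 (fun u hu => hm u (List.mem_cons_of_mem _ hu)) a ha

lemma toL_inj (m m' : ℝ → ℝ) : ∀ (l l' : List ℝ) (b : ℝ), toL m b l = toL m' b l' →
    l = l' ∧ ∀ s ∈ l, m s = m' s := by
  intro l
  induction l with
  | nil =>
    intro l' b h
    cases l' with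
    | nil => exact ⟨rfl, by simp⟩
    | cons s l' => simp [toL] at h
  | cons s l ih =>
    intro l' b h
    cases l' with
    | nil => simp [toL] at h
    | cons s' l' =>
      rw [toL, toL, List.cons.injEq, Prod.mk.injEq] at h
      have hs : s = s' := by linarith [h.1.1]
      subst hs
      obtain ⟨h1, h2⟩ := ih l' s h.2
      subst h1
      refine ⟨rfl, fun u hu => ?_⟩
      rw [List.mem_cons] at hu
      rcases hu with rfl | hu
      · exact h.1.2
      · exact h2 u hu

/-- The value of the solution at the age `b`. -/
noncomputable def W (F : List ℝ) (e : ℝ → ℝ) (p b : ℝ) : ℝ :=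
  p - (F.map (fun u => min b u * e u)).sum

lemma link (m e : ℝ → ℝ) (p : ℝ) (F : List ℝ) (hm : ∀ s ∈ F, 0 < m s)
    (he : ∀ s ∈ F, e s = m s * (Real.exp (W F e p s) + 1)) :
    ∀ (l pre : List ℝ) (b : ℝ), F = pre ++ l → (∀ u ∈ pre, u ≤ b) → l.Pairwise (· < ·) →
      (∀ u ∈ l, b ≤ u) → Lam (toL m b l) (W F e p b) = (l.map e).sum := by
  intro l
  induction l with
  | nil => intro pre b _ _ _ _; simp [toL, Lam]
  | cons s l ih =>
    intro pre b hF hpre hl hb
    have hbs : b ≤ s := hb s List.mem_cons_self
    rw [List.pairwise_cons] at hl
    have hF' : F = (pre ++ [s]) ++ l := by rw [hF]; simp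
    have h1 := ih (pre ++ [s]) s hF' (by
      intro u hu
      rw [List.mem_append, List.mem_singleton] at hu
      rcases hu with hu | rfl
      · exact (hpre u hu).trans hbs
      · exact le_rfl) hl.2 (fun u hu => (hl.1 u hu).le)
    have hsF : s ∈ F := by rw [hF]; simp
    have hlF : ∀ u ∈ l, u ∈ F := by
      intro u hu
      rw [hF]
      simp [hu]
    have hnn : NN (toL m s l) := (toL_pos m l s (by
      rw [List.pairwise_cons]; exact hl) (fun u hu => hm u (hlF u hu))).nn
    have hG := good_Lam _ hnn
    have hms := hm s hsF
    -- the slope before `s`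
    have h2 : stepF (m s) (Lam (toL m s l)) (W F e p s) = ((s :: l).map e).sum := by
      unfold stepF
      rw [h1, ← he s hsF, List.map_cons, List.sum_cons]
    -- the value at `b`
    have h3 : stepG (s - b) (m s) (Lam (toL m s l)) (W F e p s) = W F e p b := by
      unfold stepG
      rw [h2]
      unfold W
      have e1 : (pre.map (fun u => min s u * e u)).sum = (pre.map (fun u => min b u * e u)).sum := by
        congr 1
        apply List.map_congr_left
        intro u hu
        rw [min_eq_right (hpre u hu), min_eq_right ((hpre u hu).trans hbs)]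
      have e2 : ((s :: l).map (fun u => min s u * e u)).sum = s * ((s :: l).map e).sum := by
        rw [← List.sum_map_mul_left]
        congr 1
        apply List.map_congr_left
        intro u hu
        rw [List.mem_cons] at hu
        rcases hu with rfl | hu
        · rw [min_self]
        · rw [min_eq_left (hl.1 u hu).le]
      have e3 : ((s :: l).map (fun u => min b u * e u)).sum = b * ((s :: l).map e).sum := by
        rw [← List.sum_map_mul_left]
        congr 1
        apply List.map_congr_left
        intro u hu
        rw [min_eq_left (hb u hu)]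
      rw [hF, List.map_append, List.map_append, List.sum_append, List.sum_append, e1, e2, e3]
      ring
    show stepF (m s) (Lam (toL m s l))
      (Function.invFun (stepG (s - b) (m s) (Lam (toL m s l))) (W F e p b)) = _
    rw [← h3, inv_left hG (sub_nonneg.2 hbs) hms, h2]

end Pool.Agent.L7h50.AG
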