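import Pool.Agent.L7h50.AG.Dir

/-!
# The first four cluster size probabilities
-/

set_option autoImplicit false

open MeasureTheory Set

namespace Pool.Agent.L7h50.AG

/-- The probability that the tree with a root of age `s` has four vertices: three children without children, or one child
without children and one whose tree has two vertices, or one child whose tree has three vertices. -/
noncomputable def P4 (π : Measure ℝ) (s : ℝ) : ℝ :=
  Real.exp (-total π s) * ((∫ u, min s u * P1 π u ∂π) ^ 3 / 6 +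
    (∫ u, min s u * P1 π u ∂π) * (∫ u, min s u * P2 π u ∂π) + ∫ u, min s u * P3 π u ∂π)

/-- The integral of `min s u * P2 u`. -/
noncomputable def N (π : Measure ℝ) (s : ℝ) : ℝ := ∫ u, min s u * P2 π u ∂π

variable {π : Measure ℝ} [IsProbabilityMeasure π]

lemma P2_meas : Measurable (P2 π) := P1_meas.mul K_meas

lemma L_meas {g : ℝ → ℝ} (hg : Measurable g) : Measurable fun s => ∫ u, min s u * g u ∂π := by
  have h : StronglyMeasurable (Function.uncurry fun s u : ℝ => min s u * g u) := by
    apply Measurable.stronglyMeasurable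
    exact (measurable_fst.min measurable_snd).mul (hg.comp measurable_snd)
  exact (h.integral_prod_right (ν := π)).measurable

lemma N_meas : Measurable (N π) := L_meas P2_meas

lemma P3_eq (s : ℝ) : P3 π s = P1 π s * (K π s ^ 2 / 2 + N π s) := rfl

lemma P3_meas : Measurable (P3 π) :=
  P1_meas.mul (((K_meas.pow_const 2).div_const 2).add N_meas)

lemma P4_eq (s : ℝ) : P4 π s = P1 π s * (K π s ^ 3 / 6 + K π s * N π s + ∫ u, min s u * P3 π u ∂π) :=
  rfl

section

variable (h0 : ∀ᵐ u ∂π, (0 : ℝ) ≤ u)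
include h0

lemma N_nonneg {s : ℝ} (hs : 0 ≤ s) : 0 ≤ N π s := by
  apply integral_nonneg_of_ae
  filter_upwards [h0] with u hu
  exact mul_nonneg (le_min hs hu) (mul_nonneg (P1_pos u).le (K_nonneg h0 hu))

lemma minP2_int {s : ℝ} (hs : 0 ≤ s) : Integrable (fun u => min s u * P2 π u) π := by
  apply int_of_bdd ((measurable_const.min measurable_id).mul P2_meas) s
  filter_upwards [h0] with u hu
  have h1 : 0 ≤ min s u := le_min hs hu
  have h2 : min s u ≤ s := min_le_left _ _
  have h3 : P2 π u ≤ 1 := PK_le h0 hu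
  have h4 : 0 ≤ P2 π u := mul_nonneg (P1_pos u).le (K_nonneg h0 hu)
  have h5 : min s u * P2 π u ≤ s := by nlinarith
  exact ⟨mul_nonneg h1 h4, h5⟩

lemma N_le {s : ℝ} (hs : 0 ≤ s) : N π s ≤ total π s := by
  apply integral_mono_ae (minP2_int h0 hs) (min_int h0 hs)
  filter_upwards [h0] with u hu
  exact mul_le_of_le_one_right (le_min hs hu) (PK_le h0 hu)

lemma exp_bound {s : ℝ} (hs : 0 ≤ s) (n : ℕ) {x : ℝ} (hx : x ≤ total π s ^ n) :
    P1 π s * x ≤ n.factorial := by
  have h2 := total_nonneg h0 hs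
  have h3 := Real.pow_div_factorial_le_exp (total π s) h2 n
  have h4 : P1 π s * Real.exp (total π s) = 1 := by
    unfold P1
    rw [← Real.exp_add, neg_add_cancel, Real.exp_zero]
  have hf : (0 : ℝ) < n.factorial := by exact_mod_cast n.factorial_pos
  rw [div_le_iff₀ hf] at h3
  calc P1 π s * x ≤ P1 π s * (Real.exp (total π s) * n.factorial) :=
        mul_le_mul_of_nonneg_left (hx.trans h3) (P1_pos s).le
    _ = (P1 π s * Real.exp (total π s)) * n.factorial := by ring
    _ = _ := by rw [h4, one_mul]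

lemma PK3_int : Integrable (fun s => P1 π s * K π s ^ 3) π := by
  apply int_of_bdd (P1_meas.mul (K_meas.pow_const 3)) (Nat.factorial 3)
  filter_upwards [h0] with u hu
  exact ⟨mul_nonneg (P1_pos u).le (pow_nonneg (K_nonneg h0 hu) 3),
    exp_bound h0 hu 3 (pow_le_pow_left₀ (K_nonneg h0 hu) (K_le h0 hu) 3)⟩

lemma PKN_int : Integrable (fun s => P1 π s * (K π s * N π s)) π := by
  apply int_of_bdd (P1_meas.mul (K_meas.mul N_meas)) (Nat.factorial 2)
  filter_upwards [h0] with u hu
  refine ⟨mul_nonneg (P1_pos u).le (mul_nonneg (K_nonneg h0 hu) (N_nonneg h0 hu)), ?_⟩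
  apply exp_bound h0 hu 2
  rw [pow_two]
  exact mul_le_mul (K_le h0 hu) (N_le h0 hu) (N_nonneg h0 hu) (total_nonneg h0 hu)

lemma PN_int : Integrable (fun s => P1 π s * N π s) π := by
  apply int_of_bdd (P1_meas.mul N_meas) (Nat.factorial 1)
  filter_upwards [h0] with u hu
  refine ⟨mul_nonneg (P1_pos u).le (N_nonneg h0 hu), ?_⟩
  apply exp_bound h0 hu 1
  rw [pow_one]
  exact N_le h0 hu

/-- Fubini for the kernel. -/
lemma fub (w g : ℝ → ℝ) (hw : Measurable w) (hg : Measurable g) (hw0 : ∀ s, 0 ≤ s → 0 ≤ w s)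
    (hw1 : ∀ s, 0 ≤ s → w s ≤ 1) (hg0 : ∀ s, 0 ≤ s → 0 ≤ g s)
    (hi : Integrable (fun u => (∫ s, min u s * w s ∂π) * g u) π) :
    Integrable (Function.uncurry fun s u : ℝ => w s * (min s u * g u)) (π.prod π) ∧
    ∫ s, ∫ u, w s * (min s u * g u) ∂π ∂π = ∫ u, (∫ s, min u s * w s ∂π) * g u ∂π := by
  have hm : Measurable (Function.uncurry fun s u : ℝ => w s * (min s u * g u)) :=
    (hw.comp measurable_fst).mul ((measurable_fst.min measurable_snd).mul
      (hg.comp measurable_snd))
  have hint : Integrable (Function.uncurry fun s u : ℝ => w s * (min s u * g u)) (π.prod π) := by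
    rw [integrable_prod_iff' hm.aestronglyMeasurable]
    constructor
    · filter_upwards [h0] with u hu
      have h1 : 0 ≤ g u := hg0 u hu
      show Integrable (fun s => w s * (min s u * g u)) π
      apply int_of_bdd (C := u * g u)
      · exact hw.mul ((measurable_id.min measurable_const).mul measurable_const)
      · filter_upwards [h0] with s hs
        have h2 : 0 ≤ min s u := le_min hs hu
        have h3 : min s u ≤ u := min_le_right _ _
        have h4 := hw1 s hs
        have h5 := hw0 s hs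
        have h6 : min s u * g u ≤ u * g u := mul_le_mul_of_nonneg_right h3 h1
        have h7 : 0 ≤ min s u * g u := mul_nonneg h2 h1
        exact ⟨mul_nonneg h5 h7, by nlinarith⟩
    · apply hi.congr
      filter_upwards [h0] with u hu
      have h1 : 0 ≤ g u := hg0 u hu
      have h2 : ∫ s, ‖Function.uncurry (fun s u : ℝ => w s * (min s u * g u)) (s, u)‖ ∂π =
          ∫ s, (min u s * w s) * g u ∂π := by
        apply integral_congr_ae
        filter_upwards [h0] with s hs
        have h3 : 0 ≤ min s u := le_min hs hu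
        show ‖w s * (min s u * g u)‖ = _
        rw [Real.norm_of_nonneg (mul_nonneg (hw0 s hs) (mul_nonneg h3 h1)), min_comm]
        ring
      rw [h2, integral_mul_const]
  refine ⟨hint, ?_⟩
  rw [integral_integral_swap hint]
  apply integral_congr_ae
  filter_upwards with u
  have : ∫ s, w s * (min s u * g u) ∂π = ∫ s, (min u s * w s) * g u ∂π := by
    apply integral_congr_ae
    filter_upwards with s
    rw [min_comm]
    ring
  rw [this, integral_mul_const]

lemma PN_eq : ∫ s, P1 π s * N π s ∂π = ∫ s, P1 π s * K π s ^ 2 ∂π := by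
  have h := (fub h0 (P1 π) (P2 π) P1_meas P2_meas (fun s _ => (P1_pos s).le)
    (fun s hs => P1_le h0 hs) (fun s hs => mul_nonneg (P1_pos s).le (K_nonneg h0 hs))
    ((PK2_int h0).congr (Filter.Eventually.of_forall fun u => by
      show P1 π u * K π u ^ 2 = K π u * (P1 π u * K π u)
      ring))).2
  have e1 : ∫ s, ∫ u, P1 π s * (min s u * P2 π u) ∂π ∂π = ∫ s, P1 π s * N π s ∂π := by
    apply integral_congr_ae
    filter_upwards with s
    rw [integral_const_mul]
    rfl
  have e2 : ∫ u, (∫ s, min u s * P1 π s ∂π) * P2 π u ∂π = ∫ s, P1 π s * K π s ^ 2 ∂π := by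
    apply integral_congr_ae
    filter_upwards with u
    show K π u * (P1 π u * K π u) = P1 π u * K π u ^ 2
    ring
  rw [← e1, h, e2]

lemma P3K_int : Integrable (fun u => (∫ s, min u s * P1 π s ∂π) * P3 π u) π := by
  have h := ((PK3_int h0).const_mul (1 / 2)).add (PKN_int h0)
  apply h.congr
  filter_upwards with u
  show 1 / 2 * (P1 π u * K π u ^ 3) + P1 π u * (K π u * N π u) =
    K π u * (P1 π u * (K π u ^ 2 / 2 + N π u))
  ring

lemma P4_int : ∫ s, P4 π s ∂π = 2 / 3 * (∫ s, P1 π s * K π s ^ 3 ∂π) +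
    2 * ∫ s, P1 π s * (K π s * N π s) ∂π := by
  have hP3 : ∀ s, 0 ≤ s → 0 ≤ P3 π s := fun s hs => by
    rw [P3_eq]
    exact mul_nonneg (P1_pos s).le (add_nonneg (by positivity) (N_nonneg h0 hs))
  have h := fub h0 (P1 π) (P3 π) P1_meas P3_meas (fun s _ => (P1_pos s).le)
    (fun s hs => P1_le h0 hs) hP3 (P3K_int h0)
  have e1 : ∀ s, P4 π s = (1 / 6 * (P1 π s * K π s ^ 3) + P1 π s * (K π s * N π s)) +
      ∫ u, P1 π s * (min s u * P3 π u) ∂π := by
    intro s
    rw [integral_const_mul, P4_eq]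
    ring
  have i1 : Integrable (fun s => 1 / 6 * (P1 π s * K π s ^ 3) + P1 π s * (K π s * N π s)) π :=
    ((PK3_int h0).const_mul _).add (PKN_int h0)
  have i2 : Integrable (fun s => ∫ u, P1 π s * (min s u * P3 π u) ∂π) π := h.1.integral_prod_left
  simp_rw [e1]
  rw [integral_add i1 i2, h.2,
    integral_add ((PK3_int h0).const_mul _) (PKN_int h0), integral_const_mul]
  have e2 : ∫ u, (∫ s, min u s * P1 π s ∂π) * P3 π u ∂π =
      ∫ u, (1 / 2 * (P1 π u * K π u ^ 3) + P1 π u * (K π u * N π u)) ∂π := by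
    apply integral_congr_ae
    filter_upwards with u
    show K π u * (P1 π u * (K π u ^ 2 / 2 + N π u)) = _
    ring
  rw [e2, integral_add ((PK3_int h0).const_mul _) (PKN_int h0), integral_const_mul]
  ring

/-- The cubic form. -/
lemma cub_int (c : ℝ) : ∫ s, P1 π s * K π s * (K π s - c) ^ 2 ∂π =
    (∫ s, P1 π s * K π s ^ 3 ∂π) - 2 * c * (∫ s, P1 π s * K π s ^ 2 ∂π) +
      c ^ 2 * ∫ s, P1 π s * K π s ∂π := by
  have e : ∀ s, P1 π s * K π s * (K π s - c) ^ 2 =
      (P1 π s * K π s ^ 3 - 2 * c * (P1 π s * K π s ^ 2)) + c ^ 2 * (P1 π s * K π s) := by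
    intro s; ring
  simp_rw [e]
  have i1 : Integrable (fun s => P1 π s * K π s ^ 3 - 2 * c * (P1 π s * K π s ^ 2)) π :=
    (PK3_int h0).sub ((PK2_int h0).const_mul _)
  rw [integral_add i1 ((PK_int h0).const_mul _),
    integral_sub (PK3_int h0) ((PK2_int h0).const_mul _), integral_const_mul, integral_const_mul]

lemma cub_integrable (c : ℝ) : Integrable (fun s => P1 π s * K π s * (K π s - c) ^ 2) π := by
  have e : (fun s => P1 π s * K π s * (K π s - c) ^ 2) =
      fun s => (P1 π s * K π s ^ 3 - 2 * c * (P1 π s * K π s ^ 2)) + c ^ 2 * (P1 π s * K π s) := by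
    funext s; ring
  rw [e]
  exact ((PK3_int h0).sub ((PK2_int h0).const_mul _)).add ((PK_int h0).const_mul _)

end

end Pool.Agent.L7h50.AG
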